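import Pool.Agent.TH204.HP.H14
import Pool.Agent.Q319.WN.Def

/-!
# Weak approximation for ALL the varieties `yᵢ² - aᵢ zᵢ² = cᵢ (f(t₁, ..., t_m) + k)`, `k` near the multiples of almost every real number

`f` is an arbitrary integral polynomial of degree at least `2` in any number of variables. The varieties `V_k`, `k ∈ ℤ`, are
smooth and geometrically rational. Weak approximation at the finite places holds for ALL the `V_k` whose parameter `k` lies
in a window of logarithmic size around one of the multiples `n y`, `n ≤ N ^ θ`, of a real number `y`, for almost all real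
`y` of size `N ^ (1 - θ)` (with few exceptional `n`), and around the numbers `α b_n`, `n` large, for almost every real
number `α` and every rapidly increasing sequence `b` (for example `b_n = 2 ^ n`).

From Mathlib: `volume`: the Lebesgue measure; `∀ᵐ α : ℝ`: for almost all real `α`; `∀ᶠ n in atTop`: for all large `n`;
`ℚ_[p]`: the `p`-adic numbers. The bound for the number of exceptional `k` is from the starting files (`Pool.Agent.TH204.HP`),
as well as the count of the elements of arbitrary sets of integers in intervals at multiples of real numbers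
(`Pool.Agent.H438R2.DL`). `RareAtMultiples` is defined in `Pool.Agent.Q319.WN.Def`.
-/

set_option autoImplicit false

namespace Pool.Agent.Results.MP_12adaf_nt.ApproximationAtRealMultiples

open Finset MvPolynomial MeasureTheory Filter Pool.Agent.Q319.WN

instance (p : Nat.Primes) : Fact (p : ℕ).Prime := ⟨p.2⟩

variable {m r : ℕ}

/-- The point `(t, y, z)` with coordinates in the field `F` lies on `V_k`. -/
def OnV (f : MvPolynomial (Fin m) ℤ) (a c : Fin r → ℤ) (k : ℤ) {F : Type} [Field F] (t : Fin m → F) (y z : Fin r → F) : Prop :=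
  aeval t f + (k : F) ≠ 0 ∧ ∀ i, y i ^ 2 - (a i : F) * z i ^ 2 = (c i : F) * (aeval t f + (k : F))

/-- Weak approximation of level `M` at the primes of `T`: for all families of `p`-adic points `(t, y, z)` of `V_k`, `p` in `T`,
with coordinates of absolute value at most `p ^ M` and `|f(t) + k| ≥ p ^ (-M)` there is a rational point of `V_k` whose
coordinates are at the distance at most `p ^ (-M)` from those of the given point, for all `p` in `T`. For `T = ∅` this says
that `V_k` has a rational point. -/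
def WA (f : MvPolynomial (Fin m) ℤ) (a c : Fin r → ℤ) (T : Finset Nat.Primes) (M : ℕ) (k : ℤ) : Prop :=
  ∀ (t : (p : Nat.Primes) → Fin m → ℚ_[(p : ℕ)]) (y z : (p : Nat.Primes) → Fin r → ℚ_[(p : ℕ)]),
    (∀ p ∈ T, OnV f a c k (t p) (y p) (z p) ∧ (∀ j, ‖t p j‖ ≤ ((p : ℕ) : ℝ) ^ M) ∧ (∀ i, ‖y p i‖ ≤ ((p : ℕ) : ℝ) ^ M) ∧
      (∀ i, ‖z p i‖ ≤ ((p : ℕ) : ℝ) ^ M) ∧ (((p : ℕ) : ℝ) ^ M)⁻¹ ≤ ‖aeval (t p) f + (k : ℚ_[(p : ℕ)])‖) →
    ∃ (s : Fin m → ℚ) (Y Z : Fin r → ℚ), OnV f a c k s Y Z ∧
      ∀ p ∈ T, (∀ j, ‖(s j : ℚ_[(p : ℕ)]) - t p j‖ ≤ (((p : ℕ) : ℝ) ^ M)⁻¹) ∧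
      ∀ i, ‖(Y i : ℚ_[(p : ℕ)]) - y p i‖ ≤ (((p : ℕ) : ℝ) ^ M)⁻¹ ∧ ‖(Z i : ℚ_[(p : ℕ)]) - z p i‖ ≤ (((p : ℕ) : ℝ) ^ M)⁻¹

/-- The condition at the real place: there is a sign `s` such that `s cᵢ > 0` whenever `aᵢ < 0` and such that `s k > 0` or the
leading form of `f` takes a value of the sign `s` at an integral vector. -/
def RealCond (f : MvPolynomial (Fin m) ℤ) (a c : Fin r → ℤ) (k : ℤ) : Prop :=
  ∃ s : ℤ, (s = 1 ∨ s = -1) ∧ (∀ i, a i < 0 → 0 < s * c i) ∧
    (0 < s * k ∨ ∃ v : Fin m → ℤ, 0 < s * eval v (homogeneousComponent f.totalDegree f))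

/-- Let `f` be an integral polynomial of degree at least `2` in any number of variables and let `aᵢ`, `cᵢ` be nonzero
integers.
1. There is a finite set `T₀` of primes such that for all finite `T ⊇ T₀` and all `M` the exceptions `k` to weak
   approximation of level `M` at `T` for `V_k` (under the condition at the real place) are rare at the multiples of almost
   all real numbers: for almost all real `y` of size `N ^ (1 - θ)` (the exceptional set has the measure
   `N ^ (1 - θ - κ)`) and all `n ≤ N ^ θ`, with at most `N ^ θ / log ^ U N` exceptions, there is no such `k` with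
   `||k| - n y| ≤ log ^ A N`.
   For all sequences of integers `b n ≥ exp (n ^ δ)` and almost every real number `α > 0`: for all finite `T ⊇ T₀` and all
   `M`, `A`, for all large `n`, weak approximation of level `M` at `T` holds (under the condition at the real place) for
   ALL `V_k` with `||k| - α b_n| ≤ log ^ A (b_n)`.
2. If the degree of `f` is odd and all `cᵢ = 1` then this holds for all finite sets `T` of primes and without the
   condition at the real place. -/
theorem result (f : MvPolynomial (Fin m) ℤ) (hf : 2 ≤ f.totalDegree) (a c : Fin r → ℤ) (ha : ∀ i, a i ≠ 0)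
    (hc : ∀ i, c i ≠ 0) :
    (∃ T₀ : Finset Nat.Primes,
      (∀ T : Finset Nat.Primes, T₀ ⊆ T → ∀ M : ℕ, RareAtMultiples (fun k => ¬ (RealCond f a c k → WA f a c T M k))) ∧
      ∀ (b : ℕ → ℕ) (δ : ℝ), 0 < δ → (∀ᶠ n : ℕ in atTop, Real.exp ((n : ℝ) ^ δ) ≤ b n) →
        ∀ᵐ α : ℝ, 0 < α → ∀ T : Finset Nat.Primes, T₀ ⊆ T → ∀ M A : ℕ, ∀ᶠ n : ℕ in atTop, ∀ k : ℤ,
          |(|(k : ℝ)|) - α * b n| ≤ Real.log (b n) ^ A → RealCond f a c k → WA f a c T M k) ∧
    (Odd f.totalDegree → (∀ i, c i = 1) →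
      (∀ (T : Finset Nat.Primes) (M : ℕ), RareAtMultiples (fun k => ¬ WA f a c T M k)) ∧
      ∀ (b : ℕ → ℕ) (δ : ℝ), 0 < δ → (∀ᶠ n : ℕ in atTop, Real.exp ((n : ℝ) ^ δ) ≤ b n) →
        ∀ᵐ α : ℝ, 0 < α → ∀ (T : Finset Nat.Primes) (M A : ℕ), ∀ᶠ n : ℕ in atTop, ∀ k : ℤ,
          |(|(k : ℝ)|) - α * b n| ≤ Real.log (b n) ^ A → WA f a c T M k) := by
  classical
  constructor
  · have h := Pool.Agent.TH204.HP.quantM f hf a c ha hc
    simp only [Pool.Agent.TH204.HP.RC, Pool.Agent.TH204.HP.lead_eq] at h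
    obtain ⟨T₀, h1⟩ := h
    have hfew : ∀ (T : Finset Nat.Primes), T₀ ⊆ T → ∀ M : ℕ, Few (fun k => ¬ (RealCond f a c k → WA f a c T M k)) := by
      intro T hT M
      refine few_of (fun U => ?_)
      obtain ⟨X₀, h2⟩ := h1 T hT M U
      refine ⟨X₀, fun X hX F hF => ?_⟩
      refine le_trans (le_of_eq ?_) (h2 X hX)
      congr 2
      ext x
      rw [hF x, mem_filter]
      exact Iff.rfl
    refine ⟨T₀, fun T hT M => multiples (hfew T hT M), fun b δ hδ hb => ?_⟩
    have h3 := dilates_all (ι := {T : Finset Nat.Primes // T₀ ⊆ T} × ℕ)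
      (P := fun i k => ¬ (RealCond f a c k → WA f a c i.1.1 i.2 k)) (fun i => hfew i.1.1 i.1.2 i.2) b δ hδ hb
    filter_upwards [h3] with α hα hα0 T hT M A
    filter_upwards [hα hα0 (⟨T, hT⟩, M) A] with n hn k hk hR
    exact not_not.1 (hn k hk) hR
  · intro ho hc1
    have hfew : ∀ (T : Finset Nat.Primes) (M : ℕ), Few (fun k => ¬ WA f a c T M k) := by
      intro T M
      refine few_of (fun U => ?_)
      have e : c = fun _ => 1 := funext hc1
      obtain ⟨X₀, h2⟩ := Pool.Agent.TH204.HP.oddM f hf ho a ha T M U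
      refine ⟨X₀, fun X hX F hF => ?_⟩
      refine le_trans (le_of_eq ?_) (h2 X hX)
      congr 2
      ext x
      rw [hF x, mem_filter, e]
      exact Iff.rfl
    refine ⟨fun T M => multiples (hfew T M), fun b δ hδ hb => ?_⟩
    have h3 := dilates_all (ι := Finset Nat.Primes × ℕ) (P := fun i k => ¬ WA f a c i.1 i.2 k)
      (fun i => hfew i.1 i.2) b δ hδ hb
    filter_upwards [h3] with α hα hα0 T M A
    filter_upwards [hα hα0 (T, M) A] with n hn k hk
    exact not_not.1 (hn k hk)

end Pool.Agent.Results.MP_12adaf_nt.ApproximationAtRealMultiples
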