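import Pool.Agent.Q83.MV.Cover

/-!
# The closures of the rational points of double covers which are quadratic in each variable

`K` is a field of characteristic not two, for example a number field, and `X` is the double cover
`w² = f(x₁, …, x_n)` of the affine space, where `f` is any polynomial of degree at most two in each
variable. So `X` is rationally connected in general (it is a conic bundle in `n` ways). For
instance, `X` is the cone over a double cover of a product `ℙ^{n₁} × … × ℙ^{n_r}` of projective
spaces branched along a divisor of multidegree `(2, …, 2)`, a Fano variety if it is smooth, or a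
Markoff-Hurwitz hypersurface `a₁ x₁² + … + a_m x_m² = M(x₁, …, x_m)`, `M` multilinear (complete the
square). `L_v`, `v ∈ S`, are the completions of `K` at finitely many different places of any kind,
e.g. only real, complex or dyadic ones (we only use that the `L_v` are complete and that the image
of `K` in their product is dense, the weak approximation theorem for `K`).

A set `Z` of rational points of `X` is called stable if it contains with a point `P` all the
rational points of the `n` conics through `P`, on which all variables but `w` and one `x_j` are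
constant. Examples are `X(K)`, and, in the smooth projective case, the sets of the coordinates of
the points of the classes of `R`-equivalence.

**Theorem.** (1) Let `C` be the closure of a stable set, for instance of `X(K)`, in the product of
the `X(L_v)`, `v ∈ S`. Then `C` is a neighbourhood of each of its points `(T_v)` for which all `T_v`
are smooth points of `X`. So if `X` is smooth, then `C` is open and closed, as it must be if the
Brauer-Manin obstruction is the only one.

(2) For a compact set `M` in the product of the sets of the smooth points of the `X(L_v)` only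
finitely many sets `C ∩ M` arise from the stable sets. (In the smooth projective case with locally
compact `L_v`, suitable `M` represent the whole product, and in particular the classes of
`R`-equivalence have only finitely many closures.)

Idea of the proof. The closures of the stable sets are stable under taking the second intersection
of `X` with a line on which all variables but `w` and one `x_j` are constant, simultaneously at all
places of `S`. Near a point with `w_v ≠ 0` for all `v`, such steps connect all neighbouring points,
and each tuple of smooth points is moved to such a point by finitely many steps, which are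
local homeomorphisms.
-/

set_option autoImplicit false

namespace Pool.Agent.Results.MP_12adaf_nt.BiquadraticCovers

open MvPolynomial Topology

/-- The point with the coordinates `w = z none`, `x_j = z (some j)` lies on the double cover
`w² = f(x)`. -/
def OnCover {F : Type} [Field F] {n : ℕ} (f : MvPolynomial (Fin n) F) (z : Option (Fin n) → F) :
    Prop :=
  z none ^ 2 = eval (fun j => z (some j)) f

/-- The point `z` of the double cover `w² = f(x)` is smooth: the derivative `2 w` of `w² - f(x)`
with respect to `w` or one of the derivatives of `f` is not zero. -/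
def IsSmoothPoint {F : Type} [Field F] {n : ℕ} (f : MvPolynomial (Fin n) F)
    (z : Option (Fin n) → F) : Prop :=
  z none ≠ 0 ∨ ∃ j, eval (fun j => z (some j)) (pderiv j f) ≠ 0

/-- `Z` is a set of rational points of the double cover which contains with a point `P` the rational
points `Q` which have the same coordinates except for `w` and one of the `x_j`. -/
def Stable {K : Type} [Field K] {n : ℕ} (f : MvPolynomial (Fin n) K)
    (Z : Set (Option (Fin n) → K)) : Prop :=
  (∀ P ∈ Z, OnCover f P) ∧ ∀ P ∈ Z, ∀ Q, OnCover f Q →
    (∃ j, ∀ i, i ≠ j → Q (some i) = P (some i)) → Q ∈ Z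

/-- The closure of a set of `K`-points in the product of the spaces of the `L v`-points. -/
def Closure {K : Type} [Field K] {ι : Type} {L : ι → Type} [∀ v, NontriviallyNormedField (L v)]
    (σ : ∀ v, K →+* L v) {n : ℕ} (Z : Set (Option (Fin n) → K)) :
    Set (∀ v, Option (Fin n) → L v) :=
  closure {T | ∃ P ∈ Z, T = fun v i => σ v (P i)}

theorem result (K : Type) [Field K] (h2 : (2 : K) ≠ 0) (n : ℕ) (hn : 1 ≤ n) (f : MvPolynomial (Fin n) K)
    (hf : ∀ j, f.degreeOf j ≤ 2) (ι : Type) [Finite ι] (L : ι → Type)
    [∀ v, NontriviallyNormedField (L v)] [∀ v, CompleteSpace (L v)] (σ : ∀ v, K →+* L v)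
    (hσ : DenseRange fun (a : K) (v : ι) => σ v a) :
    -- (1)
    (∀ Z : Set (Option (Fin n) → K), Stable f Z → ∀ T ∈ Closure σ Z,
      (∀ v, IsSmoothPoint (map (σ v) f) (T v)) →
      Closure σ Z ∈ 𝓝[{T | ∀ v, OnCover (map (σ v) f) (T v)}] T) ∧
    -- (2)
    (∀ M : Set (∀ v, Option (Fin n) → L v), IsCompact M →
      (∀ T ∈ M, ∀ v, OnCover (map (σ v) f) (T v) ∧ IsSmoothPoint (map (σ v) f) (T v)) →
      {N | ∃ Z : Set (Option (Fin n) → K), Stable f Z ∧ N = Closure σ Z ∩ M}.Finite) := by
  classical
  have : Fintype ι := Fintype.ofFinite ι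
  have hon : ∀ {F : Type} [Field F] (g : MvPolynomial (Fin n) F) (z : Option (Fin n) → F),
      OnCover g z ↔ eval z (Pool.Agent.Q83.MV.cov g) = 0 := by
    intro F _ g z
    rw [Pool.Agent.Q83.MV.eval_cov, sub_eq_zero]
    rfl
  have hlocX : {T : ∀ v, Option (Fin n) → L v | ∀ v, OnCover (map (σ v) f) (T v)} =
      Pool.Agent.Q83.MV.locX σ (Pool.Agent.Q83.MV.cov f) := by
    ext T
    refine forall_congr' fun v => ?_
    rw [hon, Pool.Agent.Q83.MV.cov_map]
  have hcl : ∀ Z : Set (Option (Fin n) → K), Closure σ Z =
      closure (Pool.Agent.Q83.MV.emb σ '' Z) := by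
    intro Z
    unfold Closure
    congr 1
    ext T
    constructor
    · rintro ⟨P, hP, rfl⟩
      exact ⟨P, hP, rfl⟩
    · rintro ⟨P, hP, rfl⟩
      exact ⟨P, hP, rfl⟩
  set 𝒵 : Set (Set (Option (Fin n) → K)) := {Z | Stable f Z} with h𝒵
  have hst : ∀ j : Fin n, ∀ B : Finset (Option (Fin n)), B ⊆ {none, some j} → ∀ Z ∈ 𝒵,
      (∀ z ∈ Z, eval z (Pool.Agent.Q83.MV.cov f) = 0) ∧
      Pool.Agent.Q83.MV.StableFor (Pool.Agent.Q83.MV.cov f) B Z := by
    intro j B hB Z hZ
    refine ⟨fun z hz => (hon f z).1 (hZ.1 z hz), fun z hz z' hz' hoff _ => ?_⟩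
    refine hZ.2 z hz z' ((hon f z').2 hz') ⟨j, fun i hi => hoff _ fun h => ?_⟩
    have := hB h
    simp [hi] at this
  have hst0 : ∀ Z ∈ 𝒵, (∀ z ∈ Z, eval z (Pool.Agent.Q83.MV.cov f) = 0) ∧
      Pool.Agent.Q83.MV.StableFor (Pool.Agent.Q83.MV.cov f) {none} Z :=
    hst ⟨0, hn⟩ {none} (by simp)
  have hLT : ∀ T ∈ Pool.Agent.Q83.MV.locX σ (Pool.Agent.Q83.MV.cov f),
      (∀ v, IsSmoothPoint (map (σ v) f) (T v)) →
      Pool.Agent.Q83.MV.LT σ (Pool.Agent.Q83.MV.cov f) (Pool.Agent.Q83.MV.Rel σ 𝒵)
        Finset.univ T := by
    intro T hT hs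
    exact Pool.Agent.Q83.MV.LT_cov σ h2 hf (Pool.Agent.Q83.MV.rel_trans σ 𝒵)
      (Pool.Agent.Q83.MV.rel_inv σ hσ Pool.Agent.Q83.MV.quadOn_none hst0)
      (fun j => Pool.Agent.Q83.MV.rel_inv σ hσ (Pool.Agent.Q83.MV.quadOn_cov (hf j))
        (hst j _ (Finset.Subset.refl _))) hT hs
  refine ⟨?_, ?_⟩
  · intro Z hZ T hT hs
    rw [hcl] at hT ⊢
    rw [hlocX]
    have hZX : ∀ z ∈ Z, eval z (Pool.Agent.Q83.MV.cov f) = 0 := (hst0 Z hZ).1
    exact Pool.Agent.Q83.MV.open_concl σ (𝒵 := 𝒵)
      (hLT T (Pool.Agent.Q83.MV.closure_subset_locX σ hZX hT) hs) hZ hZX hT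
  · intro M hM hMX
    have hMX' : M ⊆ Pool.Agent.Q83.MV.locX σ (Pool.Agent.Q83.MV.cov f) := by
      rw [← hlocX]
      exact fun T hT v => (hMX T hT v).1
    refine (Pool.Agent.Q83.MV.finite_concl σ (𝒵 := 𝒵) hM hMX'
      fun T hT => hLT T (hMX' hT) fun v => (hMX T hT v).2).subset ?_
    rintro _ ⟨Z, hZ, rfl⟩
    exact ⟨Z, hZ, by rw [hcl]⟩

end Pool.Agent.Results.MP_12adaf_nt.BiquadraticCovers
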