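import Pool.Agent.Q83.MV.Dens

/-!
# The closures of the rational points of hypersurfaces which are quadratic in blocks of variables

`K` is a field, for example a number field, and `X : F = 0` is a hypersurface whose equation has
degree at most two in each of the disjoint blocks `0, …, r` of variables, which together are all the
variables. The main example is the (cone over the) hypersurface of multidegree `(2, …, 2)` in
`ℙ^{n₀} × … × ℙ^{n_r}` with `n₀ ≥ 2`, `n_i ≥ 1`; if it is smooth, it is rationally connected, and it
is a Fano variety if all `n_i ≥ 2`. `L_v`, `v ∈ S`, are the completions of `K` at finitely many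
different places of any kind (we only use that the `L_v` are complete and that `K` is dense in
their product, i.e. weak approximation for `K`).

Two points of `X` are called neighbours in the block `k` if they differ only in this block and if
the line through them is not tangent to `X`. A point `T` is good for `r = 0` if it has a neighbour
in the block `0`, and it is good for `r = k + 1` if it is good for `k`, and has a neighbour `T'` in
the block `k + 1` which is also good for `k`, such that the gradients of `F` at `T` and `T'` with
respect to the variables of the blocks `0, …, k` are not proportional. A tuple `(T_v)` of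
`L_v`-points is called movable if there is a sequence of tuples beginning with it, such that the
components of consecutive tuples are neighbours in the same block at all places, and such that
all components of the last one are good.

**Theorem.** (1) Let `C` be the closure of `X(K)` in the product of the `X(L_v)`, `v ∈ S`, or more
generally of any set `Z` of rational points which contains with a point all its rational neighbours.
Then `C` is a neighbourhood of each of its movable points.

(2) For a compact set `M` of movable tuples, only finitely many sets `C ∩ M` arise from all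
these sets `Z`.

So the set of the movable tuples in `C` is open, and closed in the set of all movable tuples, as it
must be if `X` is smooth and the Brauer-Manin obstruction is the only one.

Idea of the proof. `C` is stable under taking second intersections of `X` with lines on which only
one block varies, simultaneously at all the places. If the points near `T` which differ from
each other only in the first blocks are connected by moves of this kind, and the same holds near
`T'`, then one can change the coordinates in the next block near `T` by going to a neighbourhood of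
`T'`, moving there with the first blocks only, and coming back.
-/

set_option autoImplicit false

namespace Pool.Agent.Results.MP_12adaf_nt.MultiquadraticHypersurfaces

open MvPolynomial Topology

/-- `T` and `T'` are points of the hypersurface `F = 0` which differ only in the variables of the
block number `k` (`b a` is the number of the block of the variable `a`), and the line through them
is not tangent to the hypersurface at `T`. -/
def Neighbours {E : Type} [Field E] {α : Type} [Fintype α] (F : MvPolynomial α E) (b : α → ℕ)
    (k : ℕ) (T T' : α → E) : Prop :=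
  eval T F = 0 ∧ eval T' F = 0 ∧ (∀ a, b a ≠ k → T' a = T a) ∧
    ∑ a, (T' a - T a) * eval T (pderiv a F) ≠ 0

/-- Good points: `T` is good for `k = 0` if it has a neighbour in the block `0`; it is good for
`k + 1` if it is good for `k` and has a neighbour `T'` in the block `k + 1` which is good for `k`,
such that the gradients of `F` at `T` and `T'` with respect to the variables of the blocks
`0, …, k` are not proportional (one of the two by two minors is not zero). -/
def Good {E : Type} [Field E] {α : Type} [Fintype α] (F : MvPolynomial α E) (b : α → ℕ) :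
    ℕ → (α → E) → Prop
  | 0, T => ∃ T', Neighbours F b 0 T T'
  | k + 1, T => Good F b k T ∧ ∃ T', Neighbours F b (k + 1) T T' ∧ Good F b k T' ∧
      ∃ a a', b a ≤ k ∧ b a' ≤ k ∧ eval T (pderiv a F) * eval T' (pderiv a' F) ≠
        eval T (pderiv a' F) * eval T' (pderiv a F)

/-- Movable tuples of local points: a sequence of simultaneous steps to neighbours (in the same
block `k ≤ r` at all the places) leads to a tuple of good points. -/
def Movable {K : Type} [Field K] {ι : Type} {L : ι → Type} [∀ v, NontriviallyNormedField (L v)]
    (σ : ∀ v, K →+* L v) {α : Type} [Fintype α] (F : MvPolynomial α K) (b : α → ℕ) (r : ℕ)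
    (T : ∀ v, α → L v) : Prop :=
  ∃ T' : ∀ v, α → L v, Relation.ReflTransGen
    (fun S S' : ∀ v, α → L v => ∃ k ≤ r, ∀ v, Neighbours (map (σ v) F) b k (S v) (S' v)) T T' ∧
    ∀ v, Good (map (σ v) F) b r (T' v)

/-- `Z` is a set of rational points of `F = 0` which contains with a point all its rational
neighbours in the blocks `0, …, r`. -/
def Stable {K : Type} [Field K] {α : Type} [Fintype α] (F : MvPolynomial α K) (b : α → ℕ) (r : ℕ)
    (Z : Set (α → K)) : Prop :=
  (∀ z ∈ Z, eval z F = 0) ∧ ∀ z ∈ Z, ∀ z', ∀ k ≤ r, Neighbours F b k z z' → z' ∈ Z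

/-- The closure of a set of `K`-points in the product of the spaces of the `L v`-points. -/
def Closure {K : Type} [Field K] {ι : Type} {L : ι → Type} [∀ v, NontriviallyNormedField (L v)]
    (σ : ∀ v, K →+* L v) {α : Type} (Z : Set (α → K)) : Set (∀ v, α → L v) :=
  closure {T | ∃ P ∈ Z, T = fun v i => σ v (P i)}

lemma good_iff {E : Type} [Field E] {α : Type} [Fintype α] (F : MvPolynomial α E) (b : α → ℕ)
    (k : ℕ) : ∀ T : α → E, Good F b k T ↔ Pool.Agent.Q83.MV.Good F b k T := by
  induction k with
  | zero => exact fun T => Iff.rfl
  | succ k ih =>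
    intro T
    simp only [Good, Pool.Agent.Q83.MV.Good, ih]
    rfl

theorem result (K : Type) [Field K] (ι : Type) [Finite ι] (L : ι → Type)
    [∀ v, NontriviallyNormedField (L v)] [∀ v, CompleteSpace (L v)] (σ : ∀ v, K →+* L v)
    (hσ : DenseRange fun (a : K) (v : ι) => σ v a) (α : Type) [Fintype α] (b : α → ℕ) (r : ℕ)
    (hb : ∀ a, b a ≤ r) (F : MvPolynomial α K)
    (hF : ∀ k ≤ r, ∀ m ∈ F.support, ∑ a with b a = k, m a ≤ 2) :
    -- (1)
    (∀ Z : Set (α → K), Stable F b r Z → ∀ T ∈ Closure σ Z, Movable σ F b r T →
      Closure σ Z ∈ 𝓝[{T | ∀ v, eval (T v) (map (σ v) F) = 0}] T) ∧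
    -- (2)
    (∀ M : Set (∀ v, α → L v), IsCompact M → (∀ T ∈ M, Movable σ F b r T) →
      (∀ T ∈ M, ∀ v, eval (T v) (map (σ v) F) = 0) →
      {N | ∃ Z : Set (α → K), Stable F b r Z ∧ N = Closure σ Z ∩ M}.Finite) := by
  classical
  have : Fintype ι := Fintype.ofFinite ι
  have hcl : ∀ Z : Set (α → K), Closure σ Z = closure (Pool.Agent.Q83.MV.emb σ '' Z) := by
    intro Z
    unfold Closure
    congr 1
    ext T
    constructor
    · rintro ⟨P, hP, rfl⟩
      exact ⟨P, hP, rfl⟩
    · rintro ⟨P, hP, rfl⟩
      exact ⟨P, hP, rfl⟩
  set 𝒵 : Set (Set (α → K)) := {Z | Stable F b r Z} with h𝒵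
  have hQ : ∀ k ≤ r, Pool.Agent.Q83.MV.QuadOn (Pool.Agent.Q83.MV.blk b k) F :=
    fun k hk m hm => hF k hk m hm
  have hinv : ∀ k ≤ r, Pool.Agent.Q83.MV.Inv σ F (Pool.Agent.Q83.MV.blk b k)
      (Pool.Agent.Q83.MV.Rel σ 𝒵) := by
    intro k hk
    refine Pool.Agent.Q83.MV.rel_inv σ hσ (hQ k hk) fun Z hZ => ⟨hZ.1, ?_⟩
    intro z hz z' hz' hoff hd
    exact hZ.2 z hz z' k hk ⟨hZ.1 z hz, hz', fun a ha => hoff a (by
      simpa [Pool.Agent.Q83.MV.blk] using ha), hd⟩
  have hLT : ∀ T : ∀ v, α → L v, Movable σ F b r T →
      Pool.Agent.Q83.MV.LT σ F (Pool.Agent.Q83.MV.Rel σ 𝒵) Finset.univ T := by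
    rintro T ⟨T', hTT', hT'⟩
    induction hTT' using Relation.ReflTransGen.head_induction_on with
    | refl =>
      have h := Pool.Agent.Q83.MV.LT_good σ r hQ (Pool.Agent.Q83.MV.rel_trans σ 𝒵) hinv T'
        fun v => (good_iff _ _ _ _).1 (hT' v)
      have hu : Pool.Agent.Q83.MV.fst b r = Finset.univ := by
        ext a
        simp [Pool.Agent.Q83.MV.fst, hb a]
      rwa [hu] at h
    | head h _ ih =>
      obtain ⟨k, hk, hN⟩ := h
      rename_i S S' _
      have hq : ∀ v, Pool.Agent.Q83.MV.qq (map (σ v) F) (S v) (S' v - S v) =
          - Pool.Agent.Q83.MV.dd (map (σ v) F) (S v) (S' v - S v) := by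
        intro v
        rw [Pool.Agent.Q83.MV.qq, add_sub_cancel, (hN v).1, (hN v).2.1]
        ring
      have hd : ∀ v, Pool.Agent.Q83.MV.dd (map (σ v) F) (S v) (S' v - S v) ≠ 0 :=
        fun v => (hN v).2.2.2
      have hsec : Pool.Agent.Q83.MV.sec σ F (fun v => S' v - S v) S = S' := by
        funext v
        simp only [Pool.Agent.Q83.MV.sec]
        rw [hq, div_neg, div_self (hd v)]
        simp
      refine Pool.Agent.Q83.MV.LT_transport σ (Pool.Agent.Q83.MV.rel_trans σ 𝒵) (hinv k hk)
        (hQ k hk) (Finset.subset_univ _) (u := fun v => S' v - S v) (fun v j hj => ?_)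
        (fun v => by rw [hq]; exact neg_ne_zero.2 (hd v)) (by rw [hsec]; exact ih)
      have hj' : b j ≠ k := by simpa [Pool.Agent.Q83.MV.blk] using hj
      simp [(hN v).2.2.1 j hj']
  refine ⟨?_, ?_⟩
  · intro Z hZ T hT hM
    rw [hcl] at hT ⊢
    exact Pool.Agent.Q83.MV.open_concl σ (𝒵 := 𝒵) (hLT T hM) hZ hZ.1 hT
  · intro M hM hMm hMX
    refine (Pool.Agent.Q83.MV.finite_concl σ (𝒵 := 𝒵) hM hMX
      fun T hT => hLT T (hMm T hT)).subset ?_
    rintro _ ⟨Z, hZ, rfl⟩
    exact ⟨Z, hZ, by rw [hcl]⟩

end Pool.Agent.Results.MP_12adaf_nt.MultiquadraticHypersurfaces
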